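import Pool.Agent.Y992.HL.Stm

set_option autoImplicit false

/-! Project HL: choice of the parameters. -/

namespace Pool.Agent.Y929.HL

open Finset Filter Topology Pool.Agent.Y992.HL

theorem num_k (lam a b c : ℝ) (h0 : 0 < lam) (h1 : lam < 1) (hc : 0 < c) :
    ∃ k : ℕ, 1 ≤ k ∧
      (((k : ℝ) + 1) * lam ^ k) * (((k : ℝ) + 1) * (((k : ℝ) + 1) + a) + b) ≤ c := by
  have habs : |lam| < 1 := by rw [abs_of_pos h0]; exact h1
  have t3 := tendsto_pow_const_mul_const_pow_of_abs_lt_one 3 habs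
  have t2 := tendsto_pow_const_mul_const_pow_of_abs_lt_one 2 habs
  have t1 := tendsto_pow_const_mul_const_pow_of_abs_lt_one 1 habs
  have t0 := tendsto_pow_const_mul_const_pow_of_abs_lt_one 0 habs
  have t : Tendsto (fun k : ℕ => (((k : ℝ) + 1) * lam ^ k) *
      (((k : ℝ) + 1) * (((k : ℝ) + 1) + a) + b)) atTop (𝓝 0) := by
    have := ((t3.add (t2.const_mul (3 + a))).add (t1.const_mul (3 + 2 * a + b))).add
      (t0.const_mul (1 + a + b))
    simp only [mul_zero, add_zero] at this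
    refine this.congr fun k => ?_
    ring
  obtain ⟨k, hk⟩ := ((t.eventually (gt_mem_nhds hc)).and (eventually_ge_atTop 1)).exists
  exact ⟨k, hk.2, hk.1.le⟩

/-- Choice of the parameters. -/
theorem t_NUM' : S_NUM' := by
  intro ε hε hε1 B
  obtain ⟨q, hq⟩ : ∃ q : ℝ, q = 1 / (1 + ε) := ⟨_, rfl⟩
  have hq0 : 0 < q := by rw [hq]; positivity
  have hq1 : q < 1 := by
    rw [hq, div_lt_one (by linarith)]; linarith
  have hsq : √q * √q = q := Real.mul_self_sqrt hq0.le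
  have hsq0 : 0 < √q := Real.sqrt_pos.2 hq0
  have hsq1 : √q < 1 := by
    by_contra hc
    push Not at hc
    nlinarith
  have hqs : q < √q := by nlinarith
  obtain ⟨lam, hlam⟩ : ∃ lam : ℝ, lam = √(√q) := ⟨_, rfl⟩
  have hl2 : lam ^ 2 = √q := by rw [hlam]; exact Real.sq_sqrt hsq0.le
  have hl0 : 0 < lam := by rw [hlam]; exact Real.sqrt_pos.2 hsq0
  have hl1 : lam < 1 := by
    by_contra hc
    push Not at hc
    nlinarith
  have h1l : 0 < 1 - lam := by linarith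
  obtain ⟨M, hM⟩ : ∃ M : ℝ, M = 2 / ε * (1 / (1 - lam) + 1) + 4 := ⟨_, rfl⟩
  have hM0 : 0 ≤ M := by rw [hM]; positivity
  have h2e : 2 ≤ 2 / ε := by
    rw [le_div_iff₀ hε]; linarith
  have hB1 : (1 : ℝ) ≤ (B : ℝ) + 1 := by
    have : (0 : ℝ) ≤ B := Nat.cast_nonneg B
    linarith
  obtain ⟨a, ha⟩ : ∃ a : ℝ, a = Real.log (((B : ℝ) + 1) * (2 / ε)) := ⟨_, rfl⟩
  obtain ⟨b, hb⟩ : ∃ b : ℝ, b = Real.log 64 := ⟨_, rfl⟩
  obtain ⟨k, hk1, hk⟩ := num_k lam a b (ε / 128) hl0 hl1 (by positivity)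
  have hk0 : (1 : ℝ) ≤ (k : ℝ) + 1 := by
    have : (0 : ℝ) ≤ k := Nat.cast_nonneg k
    linarith
  obtain ⟨w, hw⟩ : ∃ w : ℝ, w = ((B : ℝ) + 1) * ((k : ℝ) + 1) * (2 / ε) := ⟨_, rfl⟩
  have hw1 : 1 ≤ w := by
    rw [hw]
    have h1 : 1 ≤ ((B : ℝ) + 1) * ((k : ℝ) + 1) := one_le_mul_of_one_le_of_one_le hB1 hk0
    exact one_le_mul_of_one_le_of_one_le h1 (by linarith)
  have hw0 : 0 < w := by linarith
  have hwp : 1 ≤ w ^ (k + 1) := one_le_pow₀ hw1
  obtain ⟨θ, hθ⟩ : ∃ θ : ℝ, θ = 1 / 64 / w ^ (k + 1) := ⟨_, rfl⟩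
  have hθ0 : 0 < θ := by rw [hθ]; positivity
  have hθ1 : θ ≤ 1 := by
    rw [hθ, div_le_one (by positivity)]
    linarith
  have hθ2 : w ^ (k + 1) * θ = 1 / 64 := by
    rw [hθ]
    field_simp
  obtain ⟨l, hl⟩ : ∃ l : ℝ, l = Real.log (1 / θ) := ⟨_, rfl⟩
  have hl0' : 0 ≤ l := by
    rw [hl]
    exact Real.log_nonneg (by rw [le_div_iff₀ hθ0]; linarith)
  have hlθ : l ≤ ((k : ℝ) + 1) * (((k : ℝ) + 1) + a) + b := by
    have e1 : 1 / θ = w ^ (k + 1) * 64 := by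
      rw [hθ]
      field_simp
    have e2 : Real.log w = Real.log ((k : ℝ) + 1) + a := by
      rw [hw, ha, ← Real.log_mul (by positivity) (by positivity)]
      congr 1
      ring
    have e3 : Real.log ((k : ℝ) + 1) ≤ (k : ℝ) + 1 :=
      (Real.log_le_sub_one_of_pos (by linarith)).trans (by linarith)
    rw [hl, e1, Real.log_mul (by positivity) (by norm_num), Real.log_pow, e2, ← hb]
    push_cast
    have : ((k : ℝ) + 1) * (Real.log ((k : ℝ) + 1) + a) ≤ ((k : ℝ) + 1) * (((k : ℝ) + 1) + a) :=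
      mul_le_mul_of_nonneg_left (by linarith) (by linarith)
    linarith
  -- the choice of δ
  have c1 : ContinuousAt (fun δ : ℝ => 4 * (δ / ε * (1 + 2 / ε + 4 * M)) / (1 - lam) ^ 2) 0 := by
    fun_prop
  have c2 : ContinuousAt (fun δ : ℝ => 4 * (2 / ε *
      (4 * (δ / ε * (1 + 2 / ε + 4 * M)) / (1 - lam) ^ 2) + δ / ε * (1 + 2 / ε + 4 * M)) * l) 0 := by
    fun_prop
  have c3 : ContinuousAt (fun δ : ℝ => q * Real.exp (3 * (δ / ε))) 0 := by
    fun_prop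
  have e1 := c1.eventually_lt (continuousAt_const (y := (1 : ℝ))) (by simp)
  have e2 := c2.eventually_lt (continuousAt_const (y := (1 / 16 : ℝ))) (by simp)
  have e3 := c3.eventually_lt (continuousAt_const (y := lam ^ 2)) (by simpa [hl2] using hqs)
  have e4 : ∀ᶠ δ : ℝ in 𝓝[>] 0, 0 < δ := self_mem_nhdsWithin
  obtain ⟨δ, hδ0, hδ1, hδ2, hδ3⟩ := (e4.and ((e1.and (e2.and e3)).filter_mono
    nhdsWithin_le_nhds)).exists
  obtain ⟨A, hA⟩ : ∃ A : ℝ, A = 2 * (∑ i ∈ Finset.range (k + 1), (2 / ε) ^ (i + 1)) + 1 :=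
    ⟨_, rfl⟩
  -- the choice of s0
  have h0 : Tendsto (fun s : ℕ => 1 / (s : ℝ)) atTop (𝓝 0) := tendsto_one_div_atTop_nhds_zero_nat
  have ts : Tendsto (fun s : ℕ => q * (1 + 1 / (s : ℝ)) ^ 2 *
      Real.exp (3 * (δ / ε) + 1 / (s : ℝ))) atTop (𝓝 (q * (1 + 0) ^ 2 *
        Real.exp (3 * (δ / ε) + 0))) :=
    ((tendsto_const_nhds.add h0).pow 2 |>.const_mul q).mul
      ((Real.continuous_exp.tendsto _).comp (tendsto_const_nhds.add h0))
  have es := ts.eventually (gt_mem_nhds (show q * (1 + 0) ^ 2 *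
        Real.exp (3 * (δ / ε) + 0) < lam ^ 2 by simpa using hδ3))
  have t1 : Tendsto (fun s : ℕ => (2 / (s : ℝ)) * ((B : ℝ) * ((k : ℝ) + 1)) *
      (∑ i ∈ Finset.range (k + 1), (2 / ε) ^ i)) atTop (𝓝 0) := by
    have := h0.const_mul (2 * ((B : ℝ) * ((k : ℝ) + 1)) *
      (∑ i ∈ Finset.range (k + 1), (2 / ε) ^ i))
    rw [mul_zero] at this
    refine this.congr fun s => ?_
    ring
  have t2 : Tendsto (fun s : ℕ => ((B : ℝ) * ((k : ℝ) + 1)) ^ (k + 1) *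
      (2 / (s : ℝ)) ^ (k + 1)) atTop (𝓝 0) := by
    have h2 : Tendsto (fun s : ℕ => 2 / (s : ℝ)) atTop (𝓝 0) := by
      have := h0.const_mul 2
      rw [mul_zero] at this
      refine this.congr fun s => ?_
      ring
    have := (h2.pow (k + 1)).const_mul (((B : ℝ) * ((k : ℝ) + 1)) ^ (k + 1))
    rw [zero_pow (Nat.succ_ne_zero k), mul_zero] at this
    exact this
  have t3 : Tendsto (fun s : ℕ => 2 * (((B : ℝ) * ((k : ℝ) + 2) / s) *
      (((k : ℝ) + 1) * (2 + 1 / ε) ^ (k + 1)) * (1 + A))) atTop (𝓝 0) := by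
    have := h0.const_mul (2 * (((B : ℝ) * ((k : ℝ) + 2)) *
      (((k : ℝ) + 1) * (2 + 1 / ε) ^ (k + 1)) * (1 + A)))
    rw [mul_zero] at this
    refine this.congr fun s => ?_
    ring
  have ev := es.and ((t1.eventually (gt_mem_nhds (show (0 : ℝ) < 1 / 32 by norm_num))).and
    ((t2.eventually (gt_mem_nhds (show (0 : ℝ) < 1 / 32 by norm_num))).and
    ((t3.eventually (gt_mem_nhds hδ0)).and (eventually_ge_atTop (B * (k + 2))))))
  obtain ⟨s1, hs1⟩ := eventually_atTop.1 ev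
  refine ⟨lam, M, δ, θ, A, k, max s1 2, hl0, hl1, hM0, hδ0, hθ0, hθ1, hk1, le_max_right _ _, ?_,
    hδ1.le, le_of_eq hM.symm, hA, ?_, ?_⟩
  · intro s hs
    rw [← hq]
    exact (hs1 s (le_trans (le_max_left _ _) hs)).1.le
  · intro s hs
    obtain ⟨-, g1, g2, -, -⟩ := hs1 s (le_trans (le_max_left _ _) hs)
    have h3 : 4 * (2 / ε) * ((((k : ℝ) + 1) * lam ^ k) * l) ≤ 1 / 16 := by
      have h5 : (((k : ℝ) + 1) * lam ^ k) * l ≤ ε / 128 :=
        (mul_le_mul_of_nonneg_left hlθ (by positivity)).trans hk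
      calc 4 * (2 / ε) * ((((k : ℝ) + 1) * lam ^ k) * l) ≤ 4 * (2 / ε) * (ε / 128) :=
            mul_le_mul_of_nonneg_left h5 (by positivity)
        _ = 1 / 16 := by field_simp; norm_num
    have h4 : 4 * (2 / ε * (((k : ℝ) + 1) * lam ^ k +
        4 * (δ / ε * (1 + 2 / ε + 4 * M)) / (1 - lam) ^ 2) +
        δ / ε * (1 + 2 / ε + 4 * M)) * l =
        4 * (2 / ε) * ((((k : ℝ) + 1) * lam ^ k) * l) + 4 * (2 / ε *
      (4 * (δ / ε * (1 + 2 / ε + 4 * M)) / (1 - lam) ^ 2) + δ / ε * (1 + 2 / ε + 4 * M)) * l := by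
      ring
    have h6 : ((B : ℝ) * ((k : ℝ) + 1)) ^ (k + 1) * ((2 / ε) ^ (k + 1) * θ) ≤ 1 / 64 := by
      rw [← mul_assoc, ← mul_pow, ← hθ2]
      refine mul_le_mul_of_nonneg_right ?_ hθ0.le
      refine pow_le_pow_left₀ (by positivity) ?_ _
      rw [hw]
      refine mul_le_mul_of_nonneg_right ?_ (by positivity)
      exact mul_le_mul_of_nonneg_right (by linarith) (by positivity)
    rw [← hl, h4, mul_add (((B : ℝ) * ((k : ℝ) + 1)) ^ (k + 1))]
    linarith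
  · intro s hs
    obtain ⟨-, -, -, g3, g4⟩ := hs1 s (le_trans (le_max_left _ _) hs)
    exact ⟨g4, g3.le⟩

end Pool.Agent.Y929.HL
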